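import Mathlib

namespace Pool.Agent.Results.MP_633d19_co.ConnectedSharp

/-- A loopless multigraph: `m x y` is the number of edges joining `x` and `y`. -/
structure MGraph (V : Type) where
  m : V → V → ℕ
  symm : ∀ x y, m x y = m y x
  loopless : ∀ x, m x x = 0

variable {V : Type}

/-- The degree of `x`, parallel edges counted separately. -/
def MGraph.deg [Fintype V] (G : MGraph V) (x : V) : ℕ := ∑ y, G.m x y

/-- `Δ(G) = D`. -/
def IsMaxDegree [Fintype V] (G : MGraph V) (D : ℕ) : Prop :=
  (∀ x, G.deg x ≤ D) ∧ ∃ x, G.deg x = D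

/-- `μ(G) = u`. -/
def IsMaxMult (G : MGraph V) (u : ℕ) : Prop := (∀ x y, G.m x y ≤ u) ∧ ∃ x y, G.m x y = u

/-- `G` contains a cycle of length `l` (used for `l ≥ 3`). -/
def HasCycle (G : MGraph V) (l : ℕ) : Prop :=
  ∃ f : ZMod l → V, Function.Injective f ∧ ∀ i, 0 < G.m (f i) (f (i + 1))

/-- `g(G) = g`: the smallest integer `l ≥ 3` such that `G` contains a cycle of length `l`. -/
def IsGirth (G : MGraph V) (g : ℕ) : Prop :=
  3 ≤ g ∧ HasCycle G g ∧ ∀ l, 3 ≤ l → HasCycle G l → g ≤ l

/-- `G` has a proper edge colouring with `k` colours: `c x y` is the set of the colours of the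
edges joining `x` and `y`. -/
def EdgeColourable (G : MGraph V) (k : ℕ) : Prop :=
  ∃ c : V → V → Finset (Fin k), (∀ x y, c x y = c y x) ∧ (∀ x y, (c x y).card = G.m x y) ∧
    ∀ x y z, y ≠ z → Disjoint (c x y) (c x z)

/-- `G` is connected. -/
def Conn (G : MGraph V) : Prop := ∀ x y, Relation.ReflTransGen (fun a b => 0 < G.m a b) x y

/-- The multiplicities of a cycle on `ZMod n` with `w x` edges between `x` and `x + 1`. -/
def cyc (n : ℕ) (w : ZMod n → ℕ) (x y : ZMod n) : ℕ :=
  (if y = x + 1 then w x else 0) + (if x = y + 1 then w y else 0)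

theorem cyc_symm (n : ℕ) (w : ZMod n → ℕ) (x y : ZMod n) : cyc n w x y = cyc n w y x := by
  unfold cyc; rw [add_comm]

theorem one_ne (n : ℕ) (hn : 3 ≤ n) : (1 : ZMod n) ≠ 0 := by
  intro h
  have : ((1 : ℕ) : ZMod n) = 0 := by simpa using h
  rw [ZMod.natCast_eq_zero_iff] at this
  have := Nat.le_of_dvd one_pos this
  omega

theorem two_ne (n : ℕ) (hn : 3 ≤ n) : (1 + 1 : ZMod n) ≠ 0 := by
  intro h
  have : ((2 : ℕ) : ZMod n) = 0 := by
    push_cast
    rw [← h]; ring
  rw [ZMod.natCast_eq_zero_iff] at this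
  have := Nat.le_of_dvd two_pos this
  omega

theorem cyc_self (n : ℕ) (hn : 3 ≤ n) (w : ZMod n → ℕ) (x : ZMod n) : cyc n w x x = 0 := by
  have : x ≠ x + 1 := fun h => one_ne n hn (by simpa using h.symm)
  simp [cyc, one_ne n hn]

theorem cyc_sum (n : ℕ) [NeZero n] (w : ZMod n → ℕ) (x : ZMod n) :
    ∑ y, cyc n w x y = w x + w (x - 1) := by
  unfold cyc
  rw [Finset.sum_add_distrib]
  congr 1
  · simp
  · have : ∀ y, (x = y + 1) ↔ (y = x - 1) := fun y => by
      constructor
      · rintro rfl; ring
      · rintro rfl; ring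
    simp [this]

theorem cyc_le (n : ℕ) (hn : 3 ≤ n) (w : ZMod n → ℕ) (u : ℕ) (hw : ∀ x, w x ≤ u)
    (x y : ZMod n) : cyc n w x y ≤ u := by
  unfold cyc
  split_ifs with h1 h2 h2
  · exfalso
    subst h1
    apply two_ne n hn
    have : x + 1 + 1 - x = 0 := by rw [← h2]; ring
    rw [← this]; ring
  · simpa using hw x
  · simpa using hw y
  · simp

theorem cyc_pos (n : ℕ) (w : ZMod n → ℕ) (x y : ZMod n) (h : 0 < cyc n w x y) :
    y = x + 1 ∨ y = x - 1 := by
  unfold cyc at h
  by_cases h1 : y = x + 1
  · exact Or.inl h1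
  · by_cases h2 : x = y + 1
    · right; rw [h2]; ring
    · simp [h1, h2] at h

/-- The weights on the odd cycle. -/
def wt (s D : ℕ) (x : ZMod (2 * s + 1)) : ℕ :=
  if x = 0 then (D - 1) / 2 else (D + x.val % 2) / 2

/-- The graph: a weighted odd cycle, a simple cycle of length `g` and a multiple edge, joined by
two bridges. -/
def gm (s D g u : ℕ) : ZMod (2 * s + 1) ⊕ ZMod g ⊕ Bool → ZMod (2 * s + 1) ⊕ ZMod g ⊕ Bool → ℕ
  | .inl x, .inl y => cyc _ (wt s D) x y
  | .inr (.inl x), .inr (.inl y) => cyc _ (fun _ => 1) x y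
  | .inr (.inr a), .inr (.inr b) => if a = b then 0 else u
  | .inl x, .inr (.inl y) => if x = 0 ∧ y = 0 then 1 else 0
  | .inr (.inl y), .inl x => if x = 0 ∧ y = 0 then 1 else 0
  | .inr (.inl y), .inr (.inr b) => if y = 1 ∧ b = true then 1 else 0
  | .inr (.inr b), .inr (.inl y) => if y = 1 ∧ b = true then 1 else 0
  | .inl _, .inr (.inr _) => 0
  | .inr (.inr _), .inl _ => 0

def gr (s D g u : ℕ) (hs : 1 ≤ s) (hg : 3 ≤ g) : MGraph (ZMod (2 * s + 1) ⊕ ZMod g ⊕ Bool) where
  m := gm s D g u
  symm := by
    rintro (x | x | x) (y | y | y) <;> simp only [gm]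
    · exact cyc_symm _ _ _ _
    · exact cyc_symm _ _ _ _
    · simp only [eq_comm]
  loopless := by
    rintro (x | x | x) <;> simp only [gm]
    · exact cyc_self _ (by omega) _ _
    · exact cyc_self _ hg _ _
    · simp

theorem key (G : MGraph V) (n : ℕ) [NeZero n] (emb : ZMod n → V) (hinj : Function.Injective emb)
    (l : ℕ) (hl : 3 ≤ l) (f : ZMod l → V) (hf : Function.Injective f)
    (hf2 : ∀ i, 0 < G.m (f i) (f (i + 1)))
    (hemb : ∀ x j, 0 < G.m (emb x) (f j) → f j = emb (x + 1) ∨ f j = emb (x - 1))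
    (i0 : ZMod l) (x0 : ZMod n) (h0 : f i0 = emb x0) :
    n ≤ l := by
  have hne : NeZero l := ⟨by omega⟩
  have step : ∀ x, (∃ i, f i = emb x) → ∃ i, f i = emb (x + 1) := by
    rintro x ⟨i, hi⟩
    have h1 := hf2 i
    have h2 := hf2 (i - 1)
    rw [sub_add_cancel, G.symm] at h2
    rw [hi] at h1 h2
    rcases hemb x _ h1 with h | h
    · exact ⟨_, h⟩
    · rcases hemb x _ h2 with h' | h'
      · exact ⟨_, h'⟩
      · exfalso
        have := hf (h.trans h'.symm)
        apply two_ne l hl
        have h3 : i + 1 - (i - 1) = 0 := by rw [this]; ring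
        rw [← h3]; ring
  have hall : ∀ t : ℕ, ∃ i, f i = emb (x0 + t) := by
    intro t
    induction t with
    | zero => exact ⟨i0, by simpa using h0⟩
    | succ t ih =>
      have := step _ ih
      push_cast
      rwa [← add_assoc]
  have hall2 : ∀ x : ZMod n, ∃ i, f i = emb x := by
    intro x
    have := hall (x - x0).val
    rwa [ZMod.natCast_val, ZMod.cast_id, add_sub_cancel] at this
  choose j hj using hall2
  have hjinj : Function.Injective j := by
    intro a b hab
    apply hinj
    rw [← hj a, ← hj b, hab]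
  have := Fintype.card_le_of_injective j hjinj
  rwa [ZMod.card, ZMod.card] at this

theorem crossing (l : ℕ) [NeZero l] (P : ZMod l → Prop) (i j : ZMod l) (hi : P i) (hj : ¬ P j) :
    (∃ a, P a ∧ ¬ P (a + 1)) ∧ ∃ a, ¬ P a ∧ P (a + 1) := by
  constructor
  · by_contra hcon
    push Not at hcon
    have : ∀ t : ℕ, P (i + t) := by
      intro t
      induction t with
      | zero => simpa using hi
      | succ t ih =>
        have := hcon _ ih
        push_cast
        rwa [← add_assoc]
    apply hj
    have h := this (j - i).val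
    rwa [ZMod.natCast_val, ZMod.cast_id, add_sub_cancel] at h
  · by_contra hcon
    push Not at hcon
    have : ∀ t : ℕ, ¬ P (j + t) := by
      intro t
      induction t with
      | zero => simpa using hj
      | succ t ih =>
        have := hcon _ ih
        push_cast
        rwa [← add_assoc]
    have h := this (i - j).val
    rw [ZMod.natCast_val, ZMod.cast_id, add_sub_cancel] at h
    exact h hi

theorem wt_sum (s D : ℕ) (hD : 1 ≤ D) :
    ∑ x : ZMod (2 * s + 1), wt s D x = s * D + (D - 1) / 2 := by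
  have h0 : ∑ x : ZMod (2 * s + 1), (D + x.val % 2) / 2 = s * D + D / 2 := by
    have h : ∑ x : ZMod (2 * s + 1), (D + x.val % 2) / 2 =
        ∑ i ∈ Finset.range (2 * s + 1), (D + i % 2) / 2 := by
      exact Fin.sum_univ_eq_sum_range (fun i => (D + i % 2) / 2) (2 * s + 1)
    rw [h]
    clear h
    induction s with
    | zero => simp
    | succ s ih =>
      rw [show 2 * (s + 1) + 1 = (2 * s + 1) + 1 + 1 by ring, Finset.sum_range_succ,
        Finset.sum_range_succ, ih]
      have h1 : (2 * s + 1) % 2 = 1 := by omega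
      have h2 : (2 * s + 1 + 1) % 2 = 0 := by omega
      rw [h1, h2, Nat.succ_mul]
      omega
  have h1 : ∀ x : ZMod (2 * s + 1), (D + x.val % 2) / 2 =
      wt s D x + if x = 0 then D / 2 - (D - 1) / 2 else 0 := by
    intro x
    unfold wt
    split_ifs with hx
    · subst hx
      rw [ZMod.val_zero]
      omega
    · rfl
  simp_rw [h1] at h0
  rw [Finset.sum_add_distrib] at h0
  simp only [Finset.sum_ite_eq', Finset.mem_univ, if_true] at h0
  omega

theorem colours (s D g u : ℕ) (hs : 1 ≤ s) (hg : 3 ≤ g) (k : ℕ)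
    (h : EdgeColourable (gr s D g u hs hg) k) (hD : 1 ≤ D) : s * D + (D - 1) / 2 ≤ k * s := by
  obtain ⟨c, hc1, hc2, hc3⟩ := h
  classical
  let A : Fin k → Finset (ZMod (2 * s + 1)) := fun a =>
    Finset.univ.filter (fun x => a ∈ c (.inl x) (.inl (x + 1)))
  have hne : ∀ x : ZMod (2 * s + 1), x ≠ x + 1 + 1 := by
    intro x hx
    apply two_ne (2 * s + 1) (by omega)
    have : x + 1 + 1 - x = 0 := by rw [← hx]; ring
    rw [← this]; ring
  have hA : ∀ a, (A a).card ≤ s := by
    intro a
    have hd : Disjoint (A a) ((A a).image (fun x => x + 1)) := by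
      rw [Finset.disjoint_left]
      intro x hx hx2
      obtain ⟨y, hy, rfl⟩ := Finset.mem_image.1 hx2
      have h1 : a ∈ c (.inl (y + 1)) (.inl (y + 1 + 1)) := (Finset.mem_filter.1 hx).2
      have h2 : a ∈ c (.inl y) (.inl (y + 1)) := (Finset.mem_filter.1 hy).2
      rw [hc1] at h2
      have h3 := hc3 (.inl (y + 1)) (.inl y) (.inl (y + 1 + 1)) (by
        intro h
        exact hne y (Sum.inl.inj h))
      exact Finset.disjoint_left.1 h3 h2 h1
    have h1 := Finset.card_union_of_disjoint hd
    rw [Finset.card_image_of_injective _ (add_left_injective 1)] at h1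
    have h2 := Finset.card_le_univ (A a ∪ (A a).image (fun x => x + 1))
    rw [ZMod.card] at h2
    omega
  have hcard : ∀ x : ZMod (2 * s + 1), (c (.inl x) (.inl (x + 1))).card = wt s D x := by
    intro x
    rw [hc2]
    change cyc _ (wt s D) x (x + 1) = _
    simp [cyc, hne x]
  have hsum : ∑ x : ZMod (2 * s + 1), wt s D x = ∑ a, (A a).card := by
    calc ∑ x : ZMod (2 * s + 1), wt s D x
        = ∑ x : ZMod (2 * s + 1), ∑ a : Fin k,
            if a ∈ c (.inl x) (.inl (x + 1)) then 1 else 0 := by
          apply Finset.sum_congr rfl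
          intro x _
          rw [← hcard x]
          simp
      _ = ∑ a : Fin k, ∑ x : ZMod (2 * s + 1),
            if a ∈ c (.inl x) (.inl (x + 1)) then 1 else 0 := Finset.sum_comm
      _ = ∑ a, (A a).card := by
          apply Finset.sum_congr rfl
          intro a _
          simp [A]
  rw [wt_sum s D hD] at hsum
  rw [hsum]
  calc ∑ a, (A a).card ≤ ∑ _a : Fin k, s := Finset.sum_le_sum fun a _ => hA a
    _ = k * s := by simp

theorem girth (s D g u : ℕ) (hs : 1 ≤ s) (hg : 3 ≤ g) (hgs : g ≤ 2 * s + 1) :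
    IsGirth (gr s D g u hs hg) g := by
  have : NeZero g := ⟨by omega⟩
  refine ⟨hg, ⟨fun i => .inr (.inl i), fun a b h => by simpa using h, fun i => ?_⟩, ?_⟩
  · change 0 < cyc g (fun _ => 1) i (i + 1)
    simp [cyc]
  · rintro l hl ⟨f, hf, hf2⟩
    have hnl : NeZero l := ⟨by omega⟩
    have bad : ∀ a b : ZMod l, f a = f (b + 1) → f (a + 1) = f b → False := by
      intro a b h1 h2
      have e1 := hf h1
      have e2 := hf h2
      apply two_ne l hl
      have h4 : a + 1 - b = 0 := by rw [e2]; ring
      rw [← h4, e1]; ring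
    by_cases hA : ∀ i, ∃ x, f i = .inl x
    · obtain ⟨x0, h0⟩ := hA 0
      refine le_trans hgs (key (gr s D g u hs hg) (2 * s + 1) Sum.inl Sum.inl_injective l hl
        f hf hf2 ?_ 0 x0 h0)
      intro x j hv
      obtain ⟨y, hy⟩ := hA j
      rw [hy] at hv ⊢
      rcases cyc_pos _ _ _ _ hv with h | h
      · exact Or.inl (by rw [h])
      · exact Or.inr (by rw [h])
    · by_cases hA' : ∃ i x, f i = .inl x
      · exfalso
        obtain ⟨i, hi⟩ := hA'
        push Not at hA
        obtain ⟨j, hj⟩ := hA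
        obtain ⟨⟨a, ⟨x, hx⟩, ha2⟩, ⟨b, hb1, ⟨y, hy⟩⟩⟩ :=
          crossing l (fun i => ∃ x, f i = .inl x) i j hi (by push Not; exact hj)
        have h1 := hf2 a
        have h2 := hf2 b
        rw [hx] at h1
        rw [hy] at h2
        rcases hfa : f (a + 1) with z | z | z
        · exact ha2 ⟨z, hfa⟩
        · rcases hfb : f b with w | w | w
          · exact hb1 ⟨w, hfb⟩
          · rw [hfa] at h1
            rw [hfb] at h2
            simp only [gr, gm] at h1 h2
            split_ifs at h1 with c1
            · split_ifs at h2 with c2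
              · exact bad a b (by rw [hx, hy, c1.1, c2.1]) (by rw [hfa, hfb, c1.2, c2.2])
              · omega
            · omega
          · rw [hfb] at h2
            simp [gr, gm] at h2
        · rw [hfa] at h1
          simp [gr, gm] at h1
      · push Not at hA'
        by_cases hB : ∀ i, ∃ x, f i = .inr (.inl x)
        · obtain ⟨x0, h0⟩ := hB 0
          refine key (gr s D g u hs hg) g (fun y => Sum.inr (Sum.inl y))
            (fun a b h => by simpa using h) l hl f hf hf2 ?_ 0 x0 h0
          intro x j hv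
          obtain ⟨y, hy⟩ := hB j
          rw [hy] at hv ⊢
          have hv' : 0 < cyc g (fun _ => 1) x y := hv
          rcases cyc_pos _ _ _ _ hv' with h | h
          · exact Or.inl (by rw [h])
          · exact Or.inr (by rw [h])
        · exfalso
          by_cases hB' : ∃ i x, f i = .inr (.inl x)
          · obtain ⟨i, hi⟩ := hB'
            push Not at hB
            obtain ⟨j, hj⟩ := hB
            obtain ⟨⟨a, ⟨x, hx⟩, ha2⟩, ⟨b, hb1, ⟨y, hy⟩⟩⟩ :=
              crossing l (fun i => ∃ x, f i = .inr (.inl x)) i j hi (by push Not; exact hj)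
            have h1 := hf2 a
            have h2 := hf2 b
            rw [hx] at h1
            rw [hy] at h2
            rcases hfa : f (a + 1) with z | z | z
            · exact hA' _ _ hfa
            · exact ha2 ⟨z, hfa⟩
            · rcases hfb : f b with w | w | w
              · exact hA' _ _ hfb
              · exact hb1 ⟨w, hfb⟩
              · rw [hfa] at h1
                rw [hfb] at h2
                simp only [gr, gm] at h1 h2
                split_ifs at h1 with c1
                · split_ifs at h2 with c2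
                  · exact bad a b (by rw [hx, hy, c1.1, c2.1]) (by rw [hfa, hfb, c1.2, c2.2])
                  · omega
                · omega
          · push Not at hB'
            have hC : ∀ i, ∃ b, f i = .inr (.inr b) := by
              intro i
              rcases hfi : f i with z | z | z
              · exact absurd hfi (hA' _ _)
              · exact absurd hfi (hB' _ _)
              · exact ⟨z, rfl⟩
            choose j hj using hC
            have hjinj : Function.Injective j := by
              intro a b hab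
              apply hf
              rw [hj a, hj b, hab]
            have := Fintype.card_le_of_injective j hjinj
            rw [ZMod.card, Fintype.card_bool] at this
            omega

theorem wt_le (s D u : ℕ) (h : D ≤ 2 * u) (x : ZMod (2 * s + 1)) : wt s D x ≤ u := by
  unfold wt
  split_ifs <;> omega

theorem maxMult (s D g u : ℕ) (hs : 1 ≤ s) (hg : 3 ≤ g) (hu : 1 ≤ u) (hD : D ≤ 2 * u) :
    IsMaxMult (gr s D g u hs hg) u := by
  refine ⟨?_, .inr (.inr true), .inr (.inr false), by simp [gr, gm]⟩
  rintro (x | x | x) (y | y | y) <;> simp only [gr, gm] <;> try exact Nat.zero_le _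
  · exact cyc_le _ (by omega) _ _ (wt_le s D u hD) _ _
  · split_ifs <;> omega
  · split_ifs <;> omega
  · exact cyc_le _ hg _ _ (fun _ => hu) _ _
  · split_ifs <;> omega
  · split_ifs <;> omega
  · split_ifs <;> omega

theorem val_one' (s : ℕ) (hs : 1 ≤ s) : (1 : ZMod (2 * s + 1)).val = 1 := by
  rw [ZMod.val_one_eq_one_mod]
  exact Nat.mod_eq_of_lt (by omega)

theorem wt_pair (s D : ℕ) (hs : 1 ≤ s) (hD : 1 ≤ D) (x : ZMod (2 * s + 1)) (hx0 : x ≠ 0) :
    wt s D x + wt s D (x - 1) ≤ D := by
  unfold wt
  rw [if_neg hx0]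
  split_ifs with h1
  · omega
  · by_cases hx : x.val % 2 = 1
    · have : (x - 1).val = x.val - 1 := by
        rw [ZMod.val_sub (by rw [val_one' s hs]; omega), val_one' s hs]
      rw [this]
      omega
    · omega

theorem wt_zero_pair (s D : ℕ) (hs : 1 ≤ s) (hD : 1 ≤ D) :
    wt s D 0 + wt s D (0 - 1) + 1 = D := by
  have h1 : (0 - 1 : ZMod (2 * s + 1)) ≠ 0 := by
    intro h
    apply one_ne (2 * s + 1) (by omega)
    rw [← neg_eq_zero, ← h]; ring
  have h2 : (0 - 1 : ZMod (2 * s + 1)).val = 2 * s := by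
    rw [zero_sub, ZMod.neg_val, if_neg (one_ne (2 * s + 1) (by omega)), val_one' s hs]
    omega
  unfold wt
  rw [if_pos rfl, if_neg h1, h2]
  omega

theorem maxDeg (s D g u : ℕ) (hs : 1 ≤ s) (hg : 3 ≤ g) [NeZero g] (hD2 : 3 ≤ D)
    (hu : u + 1 ≤ D) : IsMaxDegree (gr s D g u hs hg) D := by
  have h1 : ∀ x, (gr s D g u hs hg).deg (.inl x) =
      wt s D x + wt s D (x - 1) + if x = 0 then 1 else 0 := by
    intro x
    rw [← cyc_sum]
    by_cases hx : x = 0 <;> simp [MGraph.deg, gr, gm, Fintype.sum_sum_type, hx]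
  have h2 : ∀ x, (gr s D g u hs hg).deg (.inr (.inl x)) =
      (if x = 0 then 1 else 0) + (2 + if x = 1 then 1 else 0) := by
    intro x
    have e := one_ne g hg
    have e' := e.symm
    by_cases hx : x = 0
    · subst hx
      simp [MGraph.deg, gr, gm, Fintype.sum_sum_type, cyc_sum, e']
    · by_cases hx' : x = 1
      · subst hx'
        simp [MGraph.deg, gr, gm, Fintype.sum_sum_type, cyc_sum, e]
      · simp [MGraph.deg, gr, gm, Fintype.sum_sum_type, cyc_sum, hx, hx']
  have h3 : ∀ x, (gr s D g u hs hg).deg (.inr (.inr x)) ≤ 1 + u := by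
    intro x
    cases x <;> simp [MGraph.deg, gr, gm, Fintype.sum_sum_type]
  refine ⟨?_, .inl 0, ?_⟩
  · rintro (x | x | x)
    · rw [h1]
      split_ifs with hx
      · subst hx
        exact (wt_zero_pair s D hs (by omega)).le
      · exact wt_pair s D hs (by omega) x hx
    · rw [h2]
      split_ifs with c1 c2 c2
      · exact absurd (c2.symm.trans c1) (one_ne g hg)
      · omega
      · omega
      · omega
    · exact (h3 x).trans (by omega)
  · rw [h1, if_pos rfl]
    exact wt_zero_pair s D hs (by omega)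

theorem conn (s D g u : ℕ) (hs : 1 ≤ s) (hg : 3 ≤ g) (hD : 3 ≤ D) (hu : 1 ≤ u) :
    Conn (gr s D g u hs hg) := by
  have : NeZero g := ⟨by omega⟩
  set R := Relation.ReflTransGen (fun a b => 0 < (gr s D g u hs hg).m a b) with hR
  have hsymm : ∀ a b, 0 < (gr s D g u hs hg).m a b → 0 < (gr s D g u hs hg).m b a := by
    intro a b h
    rw [(gr s D g u hs hg).symm]; exact h
  have rs : ∀ a b, R a b → R b a := by
    intro a b h
    induction h with
    | refl => exact Relation.ReflTransGen.refl
    | tail _ h ih => exact Relation.ReflTransGen.head (hsymm _ _ h) ih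
  have hwp : ∀ x, 0 < wt s D x := by
    intro x
    unfold wt
    split_ifs <;> omega
  have r1 : ∀ x : ZMod (2 * s + 1), R (.inl 0) (.inl x) := by
    have : ∀ t : ℕ, R (.inl 0) (.inl (t : ZMod (2 * s + 1))) := by
      intro t
      induction t with
      | zero => simpa using Relation.ReflTransGen.refl
      | succ t ih =>
        refine ih.tail ?_
        change 0 < cyc _ (wt s D) _ _
        have := hwp (t : ZMod (2 * s + 1))
        simp [cyc]
        omega
    intro x
    have h := this x.val
    rwa [ZMod.natCast_val, ZMod.cast_id] at h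
  have r2 : ∀ x : ZMod g, R (.inr (.inl 0)) (.inr (.inl x)) := by
    have : ∀ t : ℕ, R (.inr (.inl 0)) (.inr (.inl (t : ZMod g))) := by
      intro t
      induction t with
      | zero => simpa using Relation.ReflTransGen.refl
      | succ t ih =>
        refine ih.tail ?_
        change 0 < cyc g (fun _ => 1) _ _
        simp [cyc]
    intro x
    have h := this x.val
    rwa [ZMod.natCast_val, ZMod.cast_id] at h
  have b1 : R (.inl 0) (.inr (.inl 0)) := Relation.ReflTransGen.single (by simp [gr, gm])
  have b2 : R (.inr (.inl 1)) (.inr (.inr true)) :=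
    Relation.ReflTransGen.single (by simp [gr, gm])
  have b3 : R (.inr (.inr true)) (.inr (.inr false)) :=
    Relation.ReflTransGen.single (by simp [gr, gm]; omega)
  have all : ∀ x, R (.inl 0) x := by
    rintro (x | x | x)
    · exact r1 x
    · exact b1.trans (r2 x)
    · cases x
      · exact ((b1.trans (r2 1)).trans b2).trans b3
      · exact (b1.trans (r2 1)).trans b2
  intro x y
  exact (rs _ _ (all x)).trans (all y)

/-- For all `g ≥ 3`, `u ≥ 1` and `D` with `u + 1 ≤ D ≤ 2 u` and `2 s (⌈u / s⌉ - 1) + 3 ≤ D`,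
`s = ⌊g / 2⌋`, there is a connected graph attaining Steffen's bound. In particular this applies to
`(2 u, u, g)` whenever `u ≥ 2`, `s ≥ 2` and `u` is not `1` modulo `s`. -/
theorem result :
    (∀ g u D : ℕ, 3 ≤ g → 1 ≤ u → u + 1 ≤ D →
      2 * ((g / 2) * ((u + g / 2 - 1) / (g / 2) - 1)) + 3 ≤ D → D ≤ 2 * u →
      ∃ (V : Type) (_ : Fintype V) (G : MGraph V), Conn G ∧ IsMaxDegree G D ∧ IsMaxMult G u ∧
        IsGirth G g ∧ ∀ k, EdgeColourable G k → D + (u + g / 2 - 1) / (g / 2) ≤ k) ∧
    ∀ g : ℕ, 4 ≤ g →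
      ∃ (V : Type) (_ : Fintype V) (G : MGraph V), Conn G ∧ IsMaxDegree G 4 ∧ IsMaxMult G 2 ∧
        IsGirth G g ∧ ∀ k, EdgeColourable G k → 5 ≤ k := by
  have main : ∀ g u D : ℕ, 3 ≤ g → 1 ≤ u → u + 1 ≤ D →
      2 * ((g / 2) * ((u + g / 2 - 1) / (g / 2) - 1)) + 3 ≤ D → D ≤ 2 * u →
      ∃ (V : Type) (_ : Fintype V) (G : MGraph V), Conn G ∧ IsMaxDegree G D ∧ IsMaxMult G u ∧
        IsGirth G g ∧ ∀ k, EdgeColourable G k → D + (u + g / 2 - 1) / (g / 2) ≤ k := by
    intro g u D hg hu huD h1 h2
    have : NeZero g := ⟨by omega⟩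
    have hs : 1 ≤ g / 2 := by omega
    refine ⟨_, inferInstance, gr (g / 2) D g u hs hg, conn _ _ _ _ hs hg (by omega) hu,
      maxDeg _ _ _ _ hs hg (by omega) huD,
      maxMult _ _ _ _ hs hg hu h2, girth _ _ _ _ hs hg (by omega), ?_⟩
    intro k hk
    have h3 := colours _ _ _ _ hs hg k hk (by omega)
    set s := g / 2
    set q := (u + s - 1) / s
    have hq : 1 ≤ q := by
      rw [Nat.le_div_iff_mul_le (by omega)]
      omega
    obtain ⟨q', hq'⟩ : ∃ q', q = q' + 1 := ⟨q - 1, by omega⟩
    rw [hq'] at h1 ⊢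
    simp only [Nat.add_sub_cancel] at h1
    have h4 : s * q' + 1 ≤ (D - 1) / 2 := by omega
    have h5 : s * (D + q') < s * k := by
      rw [Nat.mul_add, Nat.mul_comm s k]
      omega
    have := Nat.lt_of_mul_lt_mul_left h5
    omega
  refine ⟨main, fun g hg => ?_⟩
  have hq : (2 + g / 2 - 1) / (g / 2) = 1 := by
    rw [Nat.div_eq_iff (by omega)]
    omega
  have := main g 2 4 (by omega) (by omega) (by omega) (by rw [hq]; omega) le_rfl
  rw [hq] at this
  exact this

end Pool.Agent.Results.MP_633d19_co.ConnectedSharp
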