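import Mathlib

set_option maxHeartbeats 4000000

open Finset

namespace Pool.Agent.Results.MP_633d19_co.EvenGirth

/-- a loopless multigraph with vertex type `V` and edge type `E` -/
structure Multigraph (V E : Type) where
  /-- the two ends of an edge -/
  ends : E → Sym2 V
  loopless : ∀ e, ¬ (ends e).IsDiag

open Classical in
/-- the degree of a vertex, parallel edges counted separately -/
noncomputable def deg {V E : Type} [Fintype E] (G : Multigraph V E) (v : V) : ℕ :=
  (univ.filter (fun e => v ∈ G.ends e)).card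

open Classical in
/-- the number of edges joining `u` and `v` -/
noncomputable def mult {V E : Type} [Fintype E] (G : Multigraph V E) (u v : V) : ℕ :=
  (univ.filter (fun e => G.ends e = s(u, v))).card

/-- `Δ(G) = D` -/
def HasMaxDegree {V E : Type} [Fintype E] (G : Multigraph V E) (D : ℕ) : Prop :=
  (∀ v, deg G v ≤ D) ∧ ∃ v, deg G v = D

/-- `μ(G) = μ` -/
def HasMultiplicity {V E : Type} [Fintype E] (G : Multigraph V E) (μ : ℕ) : Prop :=
  (∀ u v, mult G u v ≤ μ) ∧ ∃ u v, mult G u v = μ

/-- `G` contains a cycle of length `ℓ` (used for `ℓ ≥ 3`) -/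
def HasCycle {V E : Type} (G : Multigraph V E) (ℓ : ℕ) : Prop :=
  ∃ c : ZMod ℓ → V, Function.Injective c ∧ ∀ i, ∃ e, G.ends e = s(c i, c (i + 1))

/-- `g` is the smallest integer `≥ 3` such that `G` contains a cycle of length `g` -/
def HasGirth {V E : Type} (G : Multigraph V E) (g : ℕ) : Prop :=
  3 ≤ g ∧ HasCycle G g ∧ ∀ ℓ, 3 ≤ ℓ → ℓ < g → ¬ HasCycle G ℓ

/-- the edges of `G` can be properly coloured with `k` colours -/
def EdgeColorable {V E : Type} (G : Multigraph V E) (k : ℕ) : Prop :=
  ∃ col : E → Fin k, ∀ e f, e ≠ f → (∃ v, v ∈ G.ends e ∧ v ∈ G.ends f) → col e ≠ col f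

lemma deg_eq {V E : Type} [Fintype E] (G : Multigraph V E) (v : V) [DecidablePred (fun e => v ∈ G.ends e)] :
    deg G v = (univ.filter (fun e => v ∈ G.ends e)).card := by
  unfold deg
  congr!

lemma mult_eq' {V E : Type} [Fintype E] (G : Multigraph V E) (u v : V) [DecidablePred (fun e => G.ends e = s(u, v))] :
    mult G u v = (univ.filter (fun e => G.ends e = s(u, v))).card := by
  unfold mult
  congr!

lemma two_ne {n : ℕ} (hn : 3 ≤ n) : (2 : ZMod n) ≠ 0 := by
  intro h
  have : ((2:ℕ) : ZMod n) = 0 := by exact_mod_cast h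
  rw [ZMod.natCast_eq_zero_iff] at this
  have := Nat.le_of_dvd (by norm_num) this
  omega

lemma one_ne {n : ℕ} (hn : 3 ≤ n) : (1 : ZMod n) ≠ 0 := by
  intro h
  apply two_ne hn
  have : (2 : ZMod n) = 1 + 1 := by norm_num
  rw [this, h]; simp

lemma edge_inj {n : ℕ} (hn : 3 ≤ n) {i j : ZMod n} (h : (i = j ∧ i + 1 = j + 1) ∨ (i = j + 1 ∧ i + 1 = j)) : i = j := by
  rcases h with h | h
  · exact h.1
  · exfalso
    apply two_ne hn
    have h1 := h.1
    have h2 := h.2
    rw [h1] at h2
    linear_combination h2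

/-- the disjoint union of `μ C_n` and `C_m` -/
def GG (n m μ : ℕ) (hn : 3 ≤ n) (hm : 3 ≤ m) : Multigraph (ZMod n ⊕ ZMod m) ((ZMod n × Fin μ) ⊕ ZMod m) where
  ends e := match e with
    | .inl (i, _) => s(.inl i, .inl (i+1))
    | .inr j => s(.inr j, .inr (j+1))
  loopless := by
    intro e
    match e with
    | .inl (i, a) =>
      simp only [Sym2.isDiag_iff_proj_eq]
      intro h
      have := Sum.inl_injective h
      exact one_ne hn (by linear_combination -this)
    | .inr j =>
      simp only [Sym2.isDiag_iff_proj_eq]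
      intro h
      have := Sum.inr_injective h
      exact one_ne hm (by linear_combination -this)

variable {n m μ : ℕ} {hn : 3 ≤ n} {hm : 3 ≤ m}

lemma deg_inl [NeZero n] [NeZero m] (v : ZMod n) : deg (GG n m μ hn hm) (.inl v) = 2 * μ := by
  classical
  rw [deg_eq]
  have : (univ.filter (fun e => (Sum.inl v : ZMod n ⊕ ZMod m) ∈ (GG n m μ hn hm).ends e)) =
      ((({v, v-1} : Finset (ZMod n)) ×ˢ (univ : Finset (Fin μ))).map Function.Embedding.inl) := by
    ext e
    simp only [mem_filter, mem_univ, true_and, mem_map, mem_product, mem_insert, mem_singleton, and_true]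
    constructor
    · intro h
      match e, h with
      | .inl (i, a), h =>
        refine ⟨(i, a), ?_, rfl⟩
        rcases Sym2.mem_iff.1 h with h | h
        · left; exact (Sum.inl_injective h).symm
        · right
          have := Sum.inl_injective h
          simp only
          linear_combination -this
      | .inr j, h =>
        rcases Sym2.mem_iff.1 h with h | h <;> simp at h
    · rintro ⟨⟨i, a⟩, h, rfl⟩
      show Sum.inl v ∈ (s(.inl i, .inl (i+1)) : Sym2 (ZMod n ⊕ ZMod m))
      rw [Sym2.mem_iff]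
      rcases h with h | h
      · left; simp only at h; rw [h]
      · right; simp only at h; rw [h]; simp
  rw [this, card_map, card_product, card_pair]
  · simp
  · intro h
    exact one_ne hn (by linear_combination h)

lemma deg_inr [NeZero n] [NeZero m] (v : ZMod m) : deg (GG n m μ hn hm) (.inr v) = 2 := by
  classical
  rw [deg_eq]
  have : (univ.filter (fun e => (Sum.inr v : ZMod n ⊕ ZMod m) ∈ (GG n m μ hn hm).ends e)) =
      ((({v, v-1} : Finset (ZMod m))).map Function.Embedding.inr) := by
    ext e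
    simp only [mem_filter, mem_univ, true_and, mem_map, mem_insert, mem_singleton]
    constructor
    · intro h
      match e, h with
      | .inr j, h =>
        refine ⟨j, ?_, rfl⟩
        rcases Sym2.mem_iff.1 h with h | h
        · left; exact (Sum.inr_injective h).symm
        · right
          have := Sum.inr_injective h
          linear_combination -this
      | .inl (i, a), h =>
        rcases Sym2.mem_iff.1 h with h | h <;> simp at h
    · rintro ⟨i, h, rfl⟩
      show Sum.inr v ∈ (s(.inr i, .inr (i+1)) : Sym2 (ZMod n ⊕ ZMod m))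
      rw [Sym2.mem_iff]
      rcases h with h | h
      · left; rw [h]
      · right; rw [h]; simp
  rw [this, card_map, card_pair]
  intro h
  exact one_ne hm (by linear_combination h)

lemma ends_inl_inj {i j : ZMod n} {a b : Fin μ}
    (h : (GG n m μ hn hm).ends (.inl (i, a)) = (GG n m μ hn hm).ends (.inl (j, b))) : i = j := by
  have h' : (s(.inl i, .inl (i+1)) : Sym2 (ZMod n ⊕ ZMod m)) = s(.inl j, .inl (j+1)) := h
  rw [Sym2.eq_iff] at h'
  apply edge_inj hn
  rcases h' with h | h
  · left; exact ⟨Sum.inl_injective h.1, Sum.inl_injective h.2⟩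
  · right; exact ⟨Sum.inl_injective h.1, Sum.inl_injective h.2⟩

lemma ends_inr_inj {i j : ZMod m}
    (h : (GG n m μ hn hm).ends (.inr i) = (GG n m μ hn hm).ends (.inr j)) : i = j := by
  have h' : (s(.inr i, .inr (i+1)) : Sym2 (ZMod n ⊕ ZMod m)) = s(.inr j, .inr (j+1)) := h
  rw [Sym2.eq_iff] at h'
  apply edge_inj hm
  rcases h' with h | h
  · left; exact ⟨Sum.inr_injective h.1, Sum.inr_injective h.2⟩
  · right; exact ⟨Sum.inr_injective h.1, Sum.inr_injective h.2⟩

lemma ends_ne {i : ZMod n} {a : Fin μ} {j : ZMod m}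
    (h : (GG n m μ hn hm).ends (.inl (i, a)) = (GG n m μ hn hm).ends (.inr j)) : False := by
  have h' : (s(.inl i, .inl (i+1)) : Sym2 (ZMod n ⊕ ZMod m)) = s(.inr j, .inr (j+1)) := h
  rw [Sym2.eq_iff] at h'
  rcases h' with h | h <;> simp at h

lemma mult_le [NeZero n] [NeZero m] (hμ : 1 ≤ μ) (u v : ZMod n ⊕ ZMod m) : mult (GG n m μ hn hm) u v ≤ μ := by
  classical
  rw [mult_eq']
  by_cases hne : (univ.filter (fun e => (GG n m μ hn hm).ends e = s(u, v))).Nonempty
  · obtain ⟨e0, he0⟩ := hne
    rw [mem_filter] at he0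
    match e0, he0 with
    | .inl (i, a), he0 =>
      have : (univ.filter (fun e => (GG n m μ hn hm).ends e = s(u, v))) ⊆
          (univ : Finset (Fin μ)).image (fun b => (Sum.inl (i, b) : (ZMod n × Fin μ) ⊕ ZMod m)) := by
        intro e he
        rw [mem_filter] at he
        match e, he with
        | .inl (j, b), he =>
          have := ends_inl_inj (he.2.trans he0.2.symm)
          rw [this]
          exact mem_image_of_mem _ (mem_univ b)
        | .inr j, he => exact (ends_ne (he0.2.trans he.2.symm)).elim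
      calc _ ≤ _ := card_le_card this
        _ ≤ (univ : Finset (Fin μ)).card := card_image_le
        _ = μ := by simp
    | .inr i, he0 =>
      have : (univ.filter (fun e => (GG n m μ hn hm).ends e = s(u, v))) ⊆ {Sum.inr i} := by
        intro e he
        rw [mem_filter] at he
        match e, he with
        | .inr j, he =>
          have := ends_inr_inj (he.2.trans he0.2.symm)
          rw [this]; simp
        | .inl (j, b), he => exact (ends_ne (he.2.trans he0.2.symm)).elim
      have := card_le_card this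
      simp at this
      omega
  · rw [not_nonempty_iff_eq_empty] at hne
    rw [hne]; simp

lemma mult_eq [NeZero n] [NeZero m] (hμ : 1 ≤ μ) : mult (GG n m μ hn hm) (.inl 0) (.inl (0+1)) = μ := by
  classical
  apply le_antisymm (mult_le hμ _ _)
  rw [mult_eq']
  have hsub : (univ : Finset (Fin μ)).image (fun b => (Sum.inl (0, b) : (ZMod n × Fin μ) ⊕ ZMod m)) ⊆
      (univ.filter (fun e => (GG n m μ hn hm).ends e = s(.inl 0, .inl (0+1)))) := by
    intro e he
    obtain ⟨b, _, rfl⟩ := mem_image.1 he
    rw [mem_filter]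
    exact ⟨mem_univ _, rfl⟩
  calc μ = (univ : Finset (Fin μ)).card := by simp
    _ = ((univ : Finset (Fin μ)).image (fun b => (Sum.inl (0, b) : (ZMod n × Fin μ) ⊕ ZMod m))).card := by
        rw [card_image_of_injective]
        intro a b h
        have := Sum.inl_injective h
        exact (Prod.ext_iff.1 this).2
    _ ≤ _ := card_le_card hsub

lemma cyc {V : Type} {p ℓ : ℕ} (hℓ : 3 ≤ ℓ) (f : ZMod p → V) (hf : Function.Injective f) (c : ZMod ℓ → V)
    (hc : Function.Injective c)
    (adj : ∀ i x, c i = f x → c (i+1) = f (x+1) ∨ c (i+1) = f (x-1)) (x0 : ZMod p) (h0 : c 0 = f x0) : p ∣ ℓ := by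
  obtain ⟨δ, hδ, h1⟩ : ∃ δ : ZMod p, (δ = 1 ∨ δ = -1) ∧ c (0+1) = f (x0 + δ) := by
    rcases adj 0 x0 h0 with h | h
    · exact ⟨1, Or.inl rfl, h⟩
    · exact ⟨-1, Or.inr rfl, by rw [h]; congr 1; ring⟩
  have key : ∀ k : ℕ, c (k : ZMod ℓ) = f (x0 + k * δ) ∧ c ((k : ZMod ℓ) + 1) = f (x0 + (k + 1) * δ) := by
    intro k
    induction k with
    | zero =>
      constructor
      · simpa using h0
      · simpa using h1
    | succ k ih =>
      have e1 : ((k + 1 : ℕ) : ZMod ℓ) = (k : ZMod ℓ) + 1 := by push_cast; ring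
      have e2 : ((k + 1 : ℕ) : ZMod p) = (k : ZMod p) + 1 := by push_cast; ring
      rw [e1, e2]
      refine ⟨ih.2, ?_⟩
      have hback : c ((k : ZMod ℓ) + 1 + 1) ≠ c (k : ZMod ℓ) := by
        intro h
        have := hc h
        exact two_ne hℓ (by linear_combination this)
      rcases adj _ _ ih.2 with h | h
      · rcases hδ with rfl | rfl
        · rw [h]; congr 1; ring
        · exfalso
          apply hback
          rw [h, ih.1]; congr 1; ring
      · rcases hδ with rfl | rfl
        · exfalso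
          apply hback
          rw [h, ih.1]; congr 1; ring
        · rw [h]; congr 1; ring
  have h2 := (key ℓ).1
  rw [ZMod.natCast_self, h0] at h2
  have h3 := hf h2
  have h4 : (ℓ : ZMod p) * δ = 0 := by linear_combination -h3
  have h5 : (ℓ : ZMod p) = 0 := by
    rcases hδ with rfl | rfl
    · simpa using h4
    · simpa using h4
  exact (ZMod.natCast_eq_zero_iff _ _).1 h5

lemma adj_inl {x : ZMod n} {w : ZMod n ⊕ ZMod m} {e : (ZMod n × Fin μ) ⊕ ZMod m}
    (h : (GG n m μ hn hm).ends e = s(.inl x, w)) : w = .inl (x+1) ∨ w = .inl (x-1) := by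
  match e, h with
  | .inl (i, a), h =>
    have h' : (s(.inl i, .inl (i+1)) : Sym2 (ZMod n ⊕ ZMod m)) = s(.inl x, w) := h
    rw [Sym2.eq_iff] at h'
    rcases h' with h | h
    · left; rw [← h.2, Sum.inl_injective h.1]
    · right; rw [← h.1, ← Sum.inl_injective h.2]; simp
  | .inr j, h =>
    have h' : (s(.inr j, .inr (j+1)) : Sym2 (ZMod n ⊕ ZMod m)) = s(.inl x, w) := h
    rw [Sym2.eq_iff] at h'
    rcases h' with h | h
    · simp at h
    · simp at h

lemma adj_inr {x : ZMod m} {w : ZMod n ⊕ ZMod m} {e : (ZMod n × Fin μ) ⊕ ZMod m}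
    (h : (GG n m μ hn hm).ends e = s(.inr x, w)) : w = .inr (x+1) ∨ w = .inr (x-1) := by
  match e, h with
  | .inr i, h =>
    have h' : (s(.inr i, .inr (i+1)) : Sym2 (ZMod n ⊕ ZMod m)) = s(.inr x, w) := h
    rw [Sym2.eq_iff] at h'
    rcases h' with h | h
    · left; rw [← h.2, Sum.inr_injective h.1]
    · right; rw [← h.1, ← Sum.inr_injective h.2]; simp
  | .inl (j, b), h =>
    have h' : (s(.inl j, .inl (j+1)) : Sym2 (ZMod n ⊕ ZMod m)) = s(.inr x, w) := h
    rw [Sym2.eq_iff] at h'
    rcases h' with h | h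
    · simp at h
    · simp at h

lemma girth_GG (hmn : m ≤ n) : HasGirth (GG n m μ hn hm) m := by
  refine ⟨hm, ⟨fun i => .inr i, Sum.inr_injective, fun i => ⟨.inr i, rfl⟩⟩, ?_⟩
  rintro ℓ hℓ hlt ⟨c, hc, hadj⟩
  rcases h0 : c 0 with x | x
  · have := cyc hℓ (fun x : ZMod n => (Sum.inl x : ZMod n ⊕ ZMod m)) Sum.inl_injective c hc (by
      intro i x hx
      obtain ⟨e, he⟩ := hadj i
      rw [hx] at he
      exact adj_inl he) x h0
    have := Nat.le_of_dvd (by omega) this
    omega
  · have := cyc hℓ (fun x : ZMod m => (Sum.inr x : ZMod n ⊕ ZMod m)) Sum.inr_injective c hc (by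
      intro i x hx
      obtain ⟨e, he⟩ := hadj i
      rw [hx] at he
      exact adj_inr he) x h0
    have := Nat.le_of_dvd (by omega) this
    omega

lemma color_bound [NeZero n] {t : ℕ} (hnt : n = 2 * t + 1) {k : ℕ} (h : EdgeColorable (GG n m μ hn hm) k) :
    n * μ ≤ k * t := by
  classical
  obtain ⟨col, hcol⟩ := h
  have hclass : ∀ κ : Fin k, ((univ : Finset (ZMod n × Fin μ)).filter (fun e => col (.inl e) = κ)).card ≤ t := by
    intro κ
    set M := (univ : Finset (ZMod n × Fin μ)).filter (fun e => col (.inl e) = κ) with hM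
    have hshare : ∀ e ∈ M, ∀ f ∈ M, (∃ v, v ∈ (GG n m μ hn hm).ends (.inl e) ∧ v ∈ (GG n m μ hn hm).ends (.inl f)) → e = f := by
      intro e he f hf hv
      by_contra hne
      rw [hM, mem_filter] at he hf
      exact hcol (.inl e) (.inl f) (fun h => hne (Sum.inl_injective h)) hv (he.2.trans hf.2.symm)
    have mem1 : ∀ e : ZMod n × Fin μ, (Sum.inl e.1 : ZMod n ⊕ ZMod m) ∈ (GG n m μ hn hm).ends (.inl e) :=
      fun e => Sym2.mem_mk_left _ _
    have mem2 : ∀ e : ZMod n × Fin μ, (Sum.inl (e.1+1) : ZMod n ⊕ ZMod m) ∈ (GG n m μ hn hm).ends (.inl e) :=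
      fun e => Sym2.mem_mk_right _ _
    have c1 : (M.image (fun e => e.1)).card = M.card := by
      apply card_image_of_injOn
      intro e he f hf hef
      refine hshare e he f hf ⟨.inl e.1, mem1 e, ?_⟩
      simp only at hef
      rw [hef]; exact mem1 f
    have c2 : (M.image (fun e => e.1 + 1)).card = M.card := by
      apply card_image_of_injOn
      intro e he f hf hef
      refine hshare e he f hf ⟨.inl (e.1+1), mem2 e, ?_⟩
      simp only at hef
      rw [hef]; exact mem2 f
    have hdis : Disjoint (M.image (fun e => e.1)) (M.image (fun e => e.1 + 1)) := by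
      rw [Finset.disjoint_left]
      intro x hx hy
      obtain ⟨e, he, rfl⟩ := mem_image.1 hx
      obtain ⟨f, hf, hfe⟩ := mem_image.1 hy
      have := hshare e he f hf ⟨.inl e.1, mem1 e, by rw [← hfe]; exact mem2 f⟩
      subst this
      exact one_ne hn (by linear_combination hfe)
    have hc : (M.image (fun e => e.1) ∪ M.image (fun e => e.1 + 1)).card ≤ n := by
      calc _ ≤ (univ : Finset (ZMod n)).card := card_le_card (subset_univ _)
        _ = n := by rw [card_univ, ZMod.card]
    rw [card_union_of_disjoint hdis, c1, c2] at hc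
    omega
  have hsum : (univ : Finset (ZMod n × Fin μ)).card = ∑ κ : Fin k, ((univ : Finset (ZMod n × Fin μ)).filter (fun e => col (.inl e) = κ)).card :=
    card_eq_sum_card_fiberwise (fun _ _ => mem_univ _)
  have h1 : (univ : Finset (ZMod n × Fin μ)).card = n * μ := by
    rw [card_univ, Fintype.card_prod, ZMod.card, Fintype.card_fin]
  rw [← h1, hsum]
  calc _ ≤ ∑ κ : Fin k, t := sum_le_sum (fun κ _ => hclass κ)
    _ = k * t := by simp

end Pool.Agent.Results.MP_633d19_co.EvenGirth

open Pool.Agent.Results.MP_633d19_co.EvenGirth in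
/-- For every even `g ≥ 4` and every `μ ≥ 1` there is a finite loopless multigraph with
`Δ = 2μ`, multiplicity `μ` and girth `g` that has no proper edge colouring with fewer than
`Δ + ⌈μ / ⌊g/2⌋⌉` colours. -/
theorem Pool.Agent.Results.MP_633d19_co.EvenGirth.result (g : ℕ) (hg : Even g) (hg4 : 4 ≤ g)
    (μ : ℕ) (hμ : 1 ≤ μ) :
    ∃ (V E : Type) (_ : Fintype V) (_ : Fintype E) (G : Multigraph V E),
      HasMaxDegree G (2 * μ) ∧ HasMultiplicity G μ ∧ HasGirth G g ∧
      ∀ k : ℕ, EdgeColorable G k → 2 * μ + ⌈(μ : ℚ) / ((g / 2 : ℕ) : ℚ)⌉₊ ≤ k := by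
  obtain ⟨t, ht⟩ := hg
  have : NeZero (g + 1) := ⟨by omega⟩
  have : NeZero g := ⟨by omega⟩
  refine ⟨ZMod (g+1) ⊕ ZMod g, (ZMod (g+1) × Fin μ) ⊕ ZMod g, inferInstance, inferInstance,
    GG (g+1) g μ (by omega) (by omega), ?_, ?_, ?_, ?_⟩
  · refine ⟨?_, ⟨.inl 0, deg_inl 0⟩⟩
    rintro (v | v)
    · exact (deg_inl v).le
    · rw [deg_inr]; omega
  · exact ⟨fun u v => mult_le hμ u v, ⟨.inl 0, .inl (0+1), mult_eq hμ⟩⟩
  · exact girth_GG (by omega)
  · intro k hk
    have h := color_bound (t := t) (by omega) hk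
    have ht2 : g / 2 = t := by omega
    rw [ht2]
    have ht0 : 0 < t := by omega
    have h2 : (2 * t + 1) * μ ≤ k * t := by
      have : g + 1 = 2 * t + 1 := by omega
      rw [this] at h; exact h
    have h3 : 2 * μ ≤ k := by
      by_contra hlt
      push Not at hlt
      have : k * t ≤ (2 * μ) * t := Nat.mul_le_mul_right t hlt.le
      nlinarith
    have h4 : ⌈(μ : ℚ) / (t : ℚ)⌉₊ ≤ k - 2 * μ := by
      apply Nat.ceil_le.2
      have htq : (0:ℚ) < t := by exact_mod_cast ht0
      rw [div_le_iff₀ htq]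
      have : μ ≤ (k - 2 * μ) * t := by
        rw [Nat.sub_mul]
        have h5 : (2 * t + 1) * μ = 2 * μ * t + μ := by ring
        omega
      exact_mod_cast this
    omega
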