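import Mathlib

namespace Pool.Agent.Results.MP_633d19_co.SteffenSharp

/-- A loopless multigraph: `m x y` is the number of edges joining `x` and `y`. -/
structure MGraph (V : Type) where
  m : V → V → ℕ
  symm : ∀ x y, m x y = m y x
  loopless : ∀ x, m x x = 0

variable {V : Type}

/-- The degree of `x`, parallel edges counted separately. -/
def MGraph.deg [Fintype V] (G : MGraph V) (x : V) : ℕ := ∑ y, G.m x y

/-- `Δ(G) = D`. -/
def IsMaxDegree [Fintype V] (G : MGraph V) (D : ℕ) : Prop :=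
  (∀ x, G.deg x ≤ D) ∧ ∃ x, G.deg x = D

/-- `μ(G) = u`. -/
def IsMaxMult (G : MGraph V) (u : ℕ) : Prop := (∀ x y, G.m x y ≤ u) ∧ ∃ x y, G.m x y = u

/-- `G` contains a cycle of length `l` (used for `l ≥ 3`). -/
def HasCycle (G : MGraph V) (l : ℕ) : Prop :=
  ∃ f : ZMod l → V, Function.Injective f ∧ ∀ i, 0 < G.m (f i) (f (i + 1))

/-- `g(G) = g`: the smallest integer `l ≥ 3` such that `G` contains a cycle of length `l`. -/
def IsGirth (G : MGraph V) (g : ℕ) : Prop :=
  3 ≤ g ∧ HasCycle G g ∧ ∀ l, 3 ≤ l → HasCycle G l → g ≤ l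

/-- `G` has a proper edge colouring with `k` colours: `c x y` is the set of the colours of the
edges joining `x` and `y`. -/
def EdgeColourable (G : MGraph V) (k : ℕ) : Prop :=
  ∃ c : V → V → Finset (Fin k), (∀ x y, c x y = c y x) ∧ (∀ x y, (c x y).card = G.m x y) ∧
    ∀ x y z, y ≠ z → Disjoint (c x y) (c x z)

/-- The multiplicities of a cycle on `ZMod n` with `w x` edges between `x` and `x + 1`. -/
def cyc (n : ℕ) (w : ZMod n → ℕ) (x y : ZMod n) : ℕ :=
  (if y = x + 1 then w x else 0) + (if x = y + 1 then w y else 0)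

theorem cyc_symm (n : ℕ) (w : ZMod n → ℕ) (x y : ZMod n) : cyc n w x y = cyc n w y x := by
  unfold cyc; rw [add_comm]

theorem one_ne (n : ℕ) (hn : 3 ≤ n) : (1 : ZMod n) ≠ 0 := by
  intro h
  have : ((1 : ℕ) : ZMod n) = 0 := by simpa using h
  rw [ZMod.natCast_eq_zero_iff] at this
  have := Nat.le_of_dvd one_pos this
  omega

theorem two_ne (n : ℕ) (hn : 3 ≤ n) : (1 + 1 : ZMod n) ≠ 0 := by
  intro h
  have : ((2 : ℕ) : ZMod n) = 0 := by
    push_cast
    rw [← h]; ring
  rw [ZMod.natCast_eq_zero_iff] at this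
  have := Nat.le_of_dvd two_pos this
  omega

theorem cyc_self (n : ℕ) (hn : 3 ≤ n) (w : ZMod n → ℕ) (x : ZMod n) : cyc n w x x = 0 := by
  have : x ≠ x + 1 := fun h => one_ne n hn (by simpa using h.symm)
  simp [cyc, one_ne n hn]

theorem cyc_sum (n : ℕ) [NeZero n] (w : ZMod n → ℕ) (x : ZMod n) :
    ∑ y, cyc n w x y = w x + w (x - 1) := by
  unfold cyc
  rw [Finset.sum_add_distrib]
  congr 1
  · simp
  · have : ∀ y, (x = y + 1) ↔ (y = x - 1) := fun y => by
      constructor
      · rintro rfl; ring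
      · rintro rfl; ring
    simp [this]

theorem cyc_le (n : ℕ) (hn : 3 ≤ n) (w : ZMod n → ℕ) (u : ℕ) (hw : ∀ x, w x ≤ u)
    (x y : ZMod n) : cyc n w x y ≤ u := by
  unfold cyc
  split_ifs with h1 h2 h2
  · exfalso
    subst h1
    apply two_ne n hn
    have : x + 1 + 1 - x = 0 := by rw [← h2]; ring
    rw [← this]; ring
  · simpa using hw x
  · simpa using hw y
  · simp

theorem cyc_pos (n : ℕ) (w : ZMod n → ℕ) (x y : ZMod n) (h : 0 < cyc n w x y) :
    y = x + 1 ∨ y = x - 1 := by
  unfold cyc at h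
  by_cases h1 : y = x + 1
  · exact Or.inl h1
  · by_cases h2 : x = y + 1
    · right; rw [h2]; ring
    · simp [h1, h2] at h

/-- The weights on the odd cycle. -/
def wt (s D : ℕ) (x : ZMod (2 * s + 1)) : ℕ := (D + x.val % 2) / 2

/-- The graph: a weighted odd cycle, a simple cycle of length `g` and a multiple edge. -/
def gm (s D g u : ℕ) : ZMod (2 * s + 1) ⊕ ZMod g ⊕ Bool → ZMod (2 * s + 1) ⊕ ZMod g ⊕ Bool → ℕ
  | .inl x, .inl y => cyc _ (wt s D) x y
  | .inr (.inl x), .inr (.inl y) => cyc _ (fun _ => 1) x y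
  | .inr (.inr a), .inr (.inr b) => if a = b then 0 else u
  | _, _ => 0

def gr (s D g u : ℕ) (hs : 1 ≤ s) (hg : 3 ≤ g) : MGraph (ZMod (2 * s + 1) ⊕ ZMod g ⊕ Bool) where
  m := gm s D g u
  symm := by
    rintro (x | x | x) (y | y | y) <;> simp only [gm]
    · exact cyc_symm _ _ _ _
    · exact cyc_symm _ _ _ _
    · simp only [eq_comm]
  loopless := by
    rintro (x | x | x) <;> simp only [gm]
    · exact cyc_self _ (by omega) _ _
    · exact cyc_self _ hg _ _
    · simp

theorem key (G : MGraph V) (n : ℕ) [NeZero n] (emb : ZMod n → V) (hinj : Function.Injective emb)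
    (hemb : ∀ x v, 0 < G.m (emb x) v → v = emb (x + 1) ∨ v = emb (x - 1))
    (l : ℕ) (hl : 3 ≤ l) (f : ZMod l → V) (hf : Function.Injective f)
    (hf2 : ∀ i, 0 < G.m (f i) (f (i + 1))) (i0 : ZMod l) (x0 : ZMod n) (h0 : f i0 = emb x0) :
    n ≤ l := by
  have hne : NeZero l := ⟨by omega⟩
  have step : ∀ x, (∃ i, f i = emb x) → ∃ i, f i = emb (x + 1) := by
    rintro x ⟨i, hi⟩
    have h1 := hf2 i
    have h2 := hf2 (i - 1)
    rw [sub_add_cancel, G.symm] at h2
    rw [hi] at h1 h2
    rcases hemb x _ h1 with h | h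
    · exact ⟨_, h⟩
    · rcases hemb x _ h2 with h' | h'
      · exact ⟨_, h'⟩
      · exfalso
        have := hf (h.trans h'.symm)
        apply two_ne l hl
        have h3 : i + 1 - (i - 1) = 0 := by rw [this]; ring
        rw [← h3]; ring
  have hall : ∀ t : ℕ, ∃ i, f i = emb (x0 + t) := by
    intro t
    induction t with
    | zero => exact ⟨i0, by simpa using h0⟩
    | succ t ih =>
      have := step _ ih
      push_cast
      rwa [← add_assoc]
  have hall2 : ∀ x : ZMod n, ∃ i, f i = emb x := by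
    intro x
    have := hall (x - x0).val
    rwa [ZMod.natCast_val, ZMod.cast_id, add_sub_cancel] at this
  choose j hj using hall2
  have hjinj : Function.Injective j := by
    intro a b hab
    apply hinj
    rw [← hj a, ← hj b, hab]
  have := Fintype.card_le_of_injective j hjinj
  rwa [ZMod.card, ZMod.card] at this

theorem wt_sum (s D : ℕ) : ∑ x : ZMod (2 * s + 1), wt s D x = s * D + D / 2 := by
  have h : ∑ x : ZMod (2 * s + 1), wt s D x =
      ∑ i ∈ Finset.range (2 * s + 1), (D + i % 2) / 2 := by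
    exact Fin.sum_univ_eq_sum_range (fun i => (D + i % 2) / 2) (2 * s + 1)
  rw [h]
  clear h
  induction s with
  | zero => simp
  | succ s ih =>
    rw [show 2 * (s + 1) + 1 = (2 * s + 1) + 1 + 1 by ring, Finset.sum_range_succ,
      Finset.sum_range_succ, ih]
    have h1 : (2 * s + 1) % 2 = 1 := by omega
    have h2 : (2 * s + 1 + 1) % 2 = 0 := by omega
    rw [h1, h2, Nat.succ_mul]
    omega

theorem colours (s D g u : ℕ) (hs : 1 ≤ s) (hg : 3 ≤ g) (k : ℕ)
    (h : EdgeColourable (gr s D g u hs hg) k) : s * D + D / 2 ≤ k * s := by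
  obtain ⟨c, hc1, hc2, hc3⟩ := h
  classical
  let A : Fin k → Finset (ZMod (2 * s + 1)) := fun a =>
    Finset.univ.filter (fun x => a ∈ c (.inl x) (.inl (x + 1)))
  have hne : ∀ x : ZMod (2 * s + 1), x ≠ x + 1 + 1 := by
    intro x hx
    apply two_ne (2 * s + 1) (by omega)
    have : x + 1 + 1 - x = 0 := by rw [← hx]; ring
    rw [← this]; ring
  have hA : ∀ a, (A a).card ≤ s := by
    intro a
    have hd : Disjoint (A a) ((A a).image (fun x => x + 1)) := by
      rw [Finset.disjoint_left]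
      intro x hx hx2
      obtain ⟨y, hy, rfl⟩ := Finset.mem_image.1 hx2
      have h1 : a ∈ c (.inl (y + 1)) (.inl (y + 1 + 1)) := (Finset.mem_filter.1 hx).2
      have h2 : a ∈ c (.inl y) (.inl (y + 1)) := (Finset.mem_filter.1 hy).2
      rw [hc1] at h2
      have h3 := hc3 (.inl (y + 1)) (.inl y) (.inl (y + 1 + 1)) (by
        intro h
        exact hne y (Sum.inl.inj h))
      exact Finset.disjoint_left.1 h3 h2 h1
    have h1 := Finset.card_union_of_disjoint hd
    rw [Finset.card_image_of_injective _ (add_left_injective 1)] at h1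
    have h2 := Finset.card_le_univ (A a ∪ (A a).image (fun x => x + 1))
    rw [ZMod.card] at h2
    omega
  have hcard : ∀ x : ZMod (2 * s + 1), (c (.inl x) (.inl (x + 1))).card = wt s D x := by
    intro x
    rw [hc2]
    change cyc _ (wt s D) x (x + 1) = _
    simp [cyc, hne x]
  have hsum : ∑ x : ZMod (2 * s + 1), wt s D x = ∑ a, (A a).card := by
    calc ∑ x : ZMod (2 * s + 1), wt s D x
        = ∑ x : ZMod (2 * s + 1), ∑ a : Fin k,
            if a ∈ c (.inl x) (.inl (x + 1)) then 1 else 0 := by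
          apply Finset.sum_congr rfl
          intro x _
          rw [← hcard x]
          simp
      _ = ∑ a : Fin k, ∑ x : ZMod (2 * s + 1),
            if a ∈ c (.inl x) (.inl (x + 1)) then 1 else 0 := Finset.sum_comm
      _ = ∑ a, (A a).card := by
          apply Finset.sum_congr rfl
          intro a _
          simp [A]
  rw [wt_sum] at hsum
  rw [hsum]
  calc ∑ a, (A a).card ≤ ∑ _a : Fin k, s := Finset.sum_le_sum fun a _ => hA a
    _ = k * s := by simp

theorem girth (s D g u : ℕ) (hs : 1 ≤ s) (hg : 3 ≤ g) (hgs : g ≤ 2 * s + 1) (hu : 1 ≤ u) :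
    IsGirth (gr s D g u hs hg) g := by
  have : NeZero g := ⟨by omega⟩
  refine ⟨hg, ⟨fun i => .inr (.inl i), fun a b h => by simpa using h, fun i => ?_⟩, ?_⟩
  · change 0 < cyc g (fun _ => 1) i (i + 1)
    simp [cyc]
  · rintro l hl ⟨f, hf, hf2⟩
    have hcase : ∀ z, f 0 = z → g ≤ l := by
      rintro (x | x | a) h0
      · refine le_trans hgs (key (gr s D g u hs hg) (2 * s + 1) Sum.inl Sum.inl_injective ?_ l hl
          f hf hf2 0 x h0)
        rintro y (v | v | v) hv
        · rcases cyc_pos _ _ _ _ hv with h | h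
          · exact Or.inl (by rw [h])
          · exact Or.inr (by rw [h])
        · exact absurd hv (by simp [gr, gm])
        · exact absurd hv (by simp [gr, gm])
      · refine key (gr s D g u hs hg) g (fun y => Sum.inr (Sum.inl y))
          (fun a b h => by simpa using h) ?_ l hl f hf hf2 0 x h0
        rintro y (v | v | v) hv
        · exact absurd hv (by simp [gr, gm])
        · have hv' : 0 < cyc g (fun _ => 1) y v := hv
          rcases cyc_pos _ _ _ _ hv' with h | h
          · exact Or.inl (by rw [h])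
          · exact Or.inr (by rw [h])
        · exact absurd hv (by simp [gr, gm])
      · exfalso
        have hn : ∀ v, 0 < (gr s D g u hs hg).m (.inr (.inr a)) v → v = .inr (.inr (!a)) := by
          rintro (v | v | v) hv
          · exact absurd hv (by simp [gr, gm])
          · exact absurd hv (by simp [gr, gm])
          · by_cases hav : a = v
            · exact absurd hv (by simp [gr, gm, hav])
            · congr 2
              cases a <;> cases v <;> simp_all
        have h1 := hf2 0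
        have h2 := hf2 (-1)
        rw [neg_add_cancel, (gr s D g u hs hg).symm] at h2
        rw [h0] at h1 h2
        have h3 := hf ((hn _ h1).trans (hn _ h2).symm)
        apply two_ne l hl
        have h4 : (0 : ZMod l) + 1 - (-1) = 0 := by rw [h3]; ring
        rw [← h4]; ring
    exact hcase _ rfl

theorem wt_le (s D u : ℕ) (h : D ≤ 2 * u) (x : ZMod (2 * s + 1)) : wt s D x ≤ u := by
  unfold wt
  omega

theorem maxMult (s D g u : ℕ) (hs : 1 ≤ s) (hg : 3 ≤ g) (hu : 1 ≤ u) (hD : D ≤ 2 * u) :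
    IsMaxMult (gr s D g u hs hg) u := by
  refine ⟨?_, .inr (.inr true), .inr (.inr false), by simp [gr, gm]⟩
  rintro (x | x | x) (y | y | y) <;> simp only [gr, gm] <;> try exact Nat.zero_le _
  · exact cyc_le _ (by omega) _ _ (wt_le s D u hD) _ _
  · exact cyc_le _ hg _ _ (fun _ => hu) _ _
  · split_ifs <;> omega

theorem val_one' (s : ℕ) (hs : 1 ≤ s) : (1 : ZMod (2 * s + 1)).val = 1 := by
  rw [ZMod.val_one_eq_one_mod]
  exact Nat.mod_eq_of_lt (by omega)

theorem wt_pair (s D : ℕ) (hs : 1 ≤ s) (x : ZMod (2 * s + 1)) :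
    wt s D x + wt s D (x - 1) ≤ D := by
  unfold wt
  by_cases hx : x.val % 2 = 1
  · have : (x - 1).val = x.val - 1 := by
      rw [ZMod.val_sub (by rw [val_one' s hs]; omega), val_one' s hs]
    rw [this]
    omega
  · omega

theorem maxDeg (s D g u : ℕ) (hs : 1 ≤ s) (hg : 3 ≤ g) [NeZero g] (hD2 : 2 ≤ D) (hu : u ≤ D) :
    IsMaxDegree (gr s D g u hs hg) D := by
  have h1 : ∀ x, (gr s D g u hs hg).deg (.inl x) = wt s D x + wt s D (x - 1) := by
    intro x
    rw [← cyc_sum]
    simp [MGraph.deg, gr, gm, Fintype.sum_sum_type]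
  have h2 : ∀ x, (gr s D g u hs hg).deg (.inr (.inl x)) = 2 := by
    intro x
    have := cyc_sum g (fun _ => 1) x
    simp [MGraph.deg, gr, gm, Fintype.sum_sum_type, this]
  have h3 : ∀ x, (gr s D g u hs hg).deg (.inr (.inr x)) = u := by
    intro x
    cases x <;> simp [MGraph.deg, gr, gm, Fintype.sum_sum_type]
  refine ⟨?_, .inl 1, ?_⟩
  · rintro (x | x | x)
    · rw [h1]; exact wt_pair s D hs x
    · rw [h2]; exact hD2
    · rw [h3]; exact hu
  · rw [h1, sub_self]
    unfold wt
    rw [val_one' s hs, ZMod.val_zero]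
    omega

/-- The largest known family of triples is extended to all `g ≥ 3`, in particular to even `g`. -/
theorem main (g u D : ℕ) (hg : 3 ≤ g) (hu : 1 ≤ u) (huD : u ≤ D)
    (h1 : 2 * ((g / 2) * ((u + g / 2 - 1) / (g / 2) - 1) + 1) ≤ D) (h2 : D ≤ 2 * u) :
    ∃ (V : Type) (_ : Fintype V) (G : MGraph V), IsMaxDegree G D ∧ IsMaxMult G u ∧ IsGirth G g ∧
      ∀ k, EdgeColourable G k → D + (u + g / 2 - 1) / (g / 2) ≤ k := by
  have : NeZero g := ⟨by omega⟩
  have hs : 1 ≤ g / 2 := by omega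
  refine ⟨_, inferInstance, gr (g / 2) D g u hs hg, maxDeg _ _ _ _ hs hg ?_ huD,
    maxMult _ _ _ _ hs hg hu h2, girth _ _ _ _ hs hg (by omega) hu, ?_⟩
  · have := Nat.zero_le ((g / 2) * ((u + g / 2 - 1) / (g / 2) - 1))
    omega
  · intro k hk
    have h3 := colours _ _ _ _ hs hg k hk
    set s := g / 2
    set q := (u + s - 1) / s
    have hq : 1 ≤ q := by
      rw [Nat.le_div_iff_mul_le (by omega)]
      omega
    obtain ⟨q', hq'⟩ : ∃ q', q = q' + 1 := ⟨q - 1, by omega⟩
    rw [hq'] at h1 ⊢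
    simp only [Nat.add_sub_cancel] at h1
    have h4 : s * q' + 1 ≤ D / 2 := by omega
    have h5 : s * (D + q') < s * k := by
      rw [Nat.mul_add, Nat.mul_comm s k]
      omega
    have := Nat.lt_of_mul_lt_mul_left h5
    omega

/-- Steffen's bound is attained (as a lower bound for `st`) for all triples with
`2 (s (⌈u / s⌉ - 1) + 1) ≤ D ≤ 2 u`, `u ≤ D`, `s = ⌊g / 2⌋`, and in particular for
`(2 u, u, g)` for all `g ≥ 3` and `u ≥ 1`. -/
theorem result :
    (∀ g u D : ℕ, 3 ≤ g → 1 ≤ u → u ≤ D →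
      2 * ((g / 2) * ((u + g / 2 - 1) / (g / 2) - 1) + 1) ≤ D → D ≤ 2 * u →
      ∃ (V : Type) (_ : Fintype V) (G : MGraph V), IsMaxDegree G D ∧ IsMaxMult G u ∧
        IsGirth G g ∧ ∀ k, EdgeColourable G k → D + (u + g / 2 - 1) / (g / 2) ≤ k) ∧
    ∀ g u : ℕ, 3 ≤ g → 1 ≤ u →
      ∃ (V : Type) (_ : Fintype V) (G : MGraph V), IsMaxDegree G (2 * u) ∧ IsMaxMult G u ∧
        IsGirth G g ∧ ∀ k, EdgeColourable G k → 2 * u + (u + g / 2 - 1) / (g / 2) ≤ k := by
  refine ⟨fun g u D hg hu huD h1 h2 => main g u D hg hu huD h1 h2, fun g u hg hu => ?_⟩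
  refine main g u (2 * u) hg hu (by omega) ?_ le_rfl
  have hs : 1 ≤ g / 2 := by omega
  have h := Nat.div_mul_le_self (u + g / 2 - 1) (g / 2)
  have hq : 1 ≤ (u + g / 2 - 1) / (g / 2) := by
    rw [Nat.le_div_iff_mul_le (by omega)]
    omega
  obtain ⟨q', hq'⟩ : ∃ q', (u + g / 2 - 1) / (g / 2) = q' + 1 := ⟨_, (Nat.sub_add_cancel hq).symm⟩
  rw [hq'] at h ⊢
  rw [Nat.add_mul, Nat.one_mul, Nat.mul_comm q'] at h
  rw [Nat.add_sub_cancel]
  omega

end Pool.Agent.Results.MP_633d19_co.SteffenSharp
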